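import Pool.Agent.U555.VM.Uni3

/-!
# Unicellular operators of the form multiplication plus causal integral operator

`(Ω, μ)` is a σ-finite measure space, `μ ≠ 0`, and `1 < p < ∞`, `1/p + 1/q = 1` (`p = 2` for Q1). The
operator is

`(T f)(x) = φ(x) f(x) + ∫ k(x, y) f(y) dμ(y)` on `L^p(μ)`,

where `φ` is any bounded complex-valued function, and the kernel `k` is

* causal: `k(x, y) = 0` unless `τ(y) < τ(x)`, for some measurable real function `τ` (the time), all of
  whose level sets are null sets, and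
* dominated: `|k(x, y)| ≤ a(x) b(y)` with `a ∈ L^p(μ)` and `b ∈ L^q(μ)`.

If `T` is unicellular, then `φ` is constant almost everywhere and the spectrum of `T` is one point.

Proof. Suppose that `φ` has two essential values `c₁ ≠ c₂`, and let `0 < r < |c₁ - c₂| / 4`. Let `E_i`
be the manifold of the vectors `x` with `‖(T - c_i)^n x‖ ≤ C r^n`, and `M_i` its closure; `M_i ≠ 0` by
the theorem on local spectra of `Pool.Agent.U555.VM`. Since `T` is unicellular, `M_i` is comparable with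
the invariant subspaces `L^p({τ > t})`, hence between `L^p(S_i)` and the union of `L^p({τ > t_n})`,
where `S_i` is the union of the sets `{τ > t_n}`. The transposed operator of the restriction of `T` to
`L^p(S_i)` has a functional with local spectrum near each essential value `c'` of `φ` on `S_i`; it
annihilates `E_i` if `|c' - c_i| > 2 r`, hence it vanishes. So all essential values of `φ` on `S_i` are
within `2 r` of `c_i`. But `S_1` and `S_2` are nested and not null sets.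
-/

set_option autoImplicit false

open MeasureTheory Set Filter Topology
open scoped ENNReal

namespace Pool.Agent.Results.MP_546dcb_an.MultiplicationPlusCausal

section Defs

variable {Ω : Type} [MeasurableSpace Ω]

/-- `(T f)(x) = φ(x) f(x) + ∫ k(x, y) f(y) dμ(y)` for all `f ∈ L^p(μ)` and almost all `x` -/
def Represents (μ : Measure Ω) (p : ℝ≥0∞) [Fact (1 ≤ p)] (φ : Ω → ℂ) (k : Ω → Ω → ℂ)
    (T : Lp ℂ p μ →L[ℂ] Lp ℂ p μ) : Prop :=
  ∀ f : Lp ℂ p μ, ∀ᵐ x ∂μ, (T f) x = φ x * f x + ∫ y, k x y * f y ∂μ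

/-- `k(x, y) = 0` unless `τ(y) < τ(x)` -/
def Causal (τ : Ω → ℝ) (k : Ω → Ω → ℂ) : Prop := ∀ x y, τ x ≤ τ y → k x y = 0

/-- `|k(x, y)| ≤ a(x) b(y)` with nonnegative `a ∈ L^p(μ)` and `b ∈ L^q(μ)` -/
def Dominated (μ : Measure Ω) (p q : ℝ≥0∞) (k : Ω → Ω → ℂ) : Prop :=
  ∃ a b : Ω → ℝ, Measurable a ∧ Measurable b ∧ (∀ x, 0 ≤ a x) ∧ (∀ x, 0 ≤ b x) ∧
    MemLp a p μ ∧ MemLp b q μ ∧ ∀ x y, ‖k x y‖ ≤ a x * b y

/-- `T` is unicellular: any two closed invariant subspaces are comparable. -/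
def Unicellular {X : Type} [NormedAddCommGroup X] [NormedSpace ℂ X] (T : X →L[ℂ] X) : Prop :=
  ∀ V W : Submodule ℂ X, IsClosed (V : Set X) → IsClosed (W : Set X) →
    (∀ v ∈ V, T v ∈ V) → (∀ w ∈ W, T w ∈ W) → V ≤ W ∨ W ≤ V

end Defs

/-- **A unicellular operator of the form multiplication plus dominated causal kernel**, for a time
whose level sets are null sets, has a constant symbol, and its spectrum is one point. -/
theorem result {Ω : Type} [MeasurableSpace Ω] (μ : Measure Ω) [SigmaFinite μ] (hμ : μ ≠ 0)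
    (p q : ℝ≥0∞) [Fact (1 ≤ p)] (hp1 : 1 < p) (hp2 : p ≠ ∞) (hpq : p⁻¹ + q⁻¹ = 1)
    (φ : Ω → ℂ) (hφ : Measurable φ) (hφb : ∃ M : ℝ, ∀ᵐ x ∂μ, ‖φ x‖ ≤ M)
    (τ : Ω → ℝ) (hτ : Measurable τ) (hlev : ∀ t : ℝ, μ {x | τ x = t} = 0)
    (k : Ω → Ω → ℂ) (hk : Measurable (Function.uncurry k))
    (hc : Causal τ k) (hd : Dominated μ p q k) :
    (∃ T : Lp ℂ p μ →L[ℂ] Lp ℂ p μ, Represents μ p φ k T) ∧
    ∀ T : Lp ℂ p μ →L[ℂ] Lp ℂ p μ, Represents μ p φ k T → Unicellular T →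
      ∃ c : ℂ, (∀ᵐ x ∂μ, φ x = c) ∧ spectrum ℂ T = {c} := by
  obtain ⟨a, b, ha, hb, ha0, hb0, haL, hbL, hkb⟩ := hd
  obtain ⟨M, hM⟩ := hφb
  have hM' : ∀ᵐ x ∂μ, ‖φ x‖ ≤ |M| := by
    filter_upwards [hM] with x hx
    exact hx.trans (le_abs_self M)
  have hker : Pool.Agent.U555.VM.Ker τ a b k := ⟨hτ, ha, hb, ha0, hb0, hk, hkb, hc⟩
  have hfull := Pool.Agent.U555.VM.full2 hp1 hp2 hpq φ hφ |M| (abs_nonneg M) hM' a b haL hbL k hker
  refine ⟨hfull.1, fun T hT huni => ?_⟩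
  obtain ⟨c, hcφ⟩ := Pool.Agent.U555.VM.uni hp1 hp2 hpq hφ |M| (abs_nonneg M) hM' haL hbL hker
    hlev T hT huni
  refine ⟨c, hcφ, ?_⟩
  rw [(hfull.2 T hT).1]
  ext c'
  rw [Set.mem_setOf_eq, Set.mem_singleton_iff]
  constructor
  · intro h
    by_contra hne
    refine h ‖c - c'‖ (norm_pos_iff.2 (sub_ne_zero.2 (Ne.symm hne))) ?_
    rw [measure_eq_zero_iff_ae_notMem]
    filter_upwards [hcφ] with x hx hx2
    have hx3 : ‖φ x - c'‖ < ‖c - c'‖ := hx2
    rw [hx] at hx3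
    exact lt_irrefl _ hx3
  · rintro rfl ε hε h0
    apply hμ
    rw [← Measure.measure_univ_eq_zero]
    rw [measure_eq_zero_iff_ae_notMem] at h0 ⊢
    filter_upwards [h0, hcφ] with x hx hx2 _
    apply hx
    show ‖φ x - c'‖ < ε
    rw [hx2, sub_self, norm_zero]
    exact hε

end Pool.Agent.Results.MP_546dcb_an.MultiplicationPlusCausal
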